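import Mathlib

set_option linter.unusedSectionVars false

namespace Pool.Agent.MP_02bc1b_co

open Finset

variable {V : Type*} [Fintype V] [DecidableEq V]

/-- colourings in which no pair of `M` is entirely coloured `col` -/
def badSet (col : Fin 4) (M : Finset (V × V)) : Finset (V → Fin 4) :=
  univ.filter (fun f => ∀ x ∈ M, ¬ (f x.1 = col ∧ f x.2 = col))

lemma badSet_card (col : Fin 4) (M : Finset (V × V))
    (hdisj : ∀ x ∈ M, ∀ y ∈ M, x ≠ y → x.1 ≠ y.1 ∧ x.1 ≠ y.2 ∧ x.2 ≠ y.1 ∧ x.2 ≠ y.2) :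
    (badSet col M).card * 16 ^ M.card ≤ 15 ^ M.card * 4 ^ Fintype.card V := by
  induction M using Finset.induction_on with
  | empty =>
    simp [badSet]
  | insert x M hx ih =>
    have ih' := ih (fun y hy z hz hyz =>
      hdisj y (Finset.mem_insert_of_mem hy) z (Finset.mem_insert_of_mem hz) hyz)
    have hxM : ∀ y ∈ M, y.1 ≠ x.1 ∧ y.1 ≠ x.2 ∧ y.2 ≠ x.1 ∧ y.2 ≠ x.2 := by
      intro y hy
      exact hdisj y (Finset.mem_insert_of_mem hy) x (Finset.mem_insert_self x M)
        (fun h => hx (h ▸ hy))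
    set A' := badSet col M with hA'
    set B := A'.filter (fun f => f x.1 = col ∧ f x.2 = col) with hB
    have hA : badSet col (insert x M) = A' \ B := by
      ext f
      simp only [badSet, hA', hB, Finset.mem_filter, Finset.mem_univ, true_and,
        Finset.mem_sdiff, Finset.forall_mem_insert]
      tauto
    have hBA : B ⊆ A' := Finset.filter_subset _ _
    have hcard : (badSet col (insert x M)).card = A'.card - B.card := by
      rw [hA, Finset.card_sdiff_of_subset hBA]
    have hBle : B.card ≤ A'.card := Finset.card_le_card hBA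
    -- fibre bound
    let Φ : (V → Fin 4) → (V → Fin 4) :=
      fun f => Function.update (Function.update f x.1 col) x.2 col
    have hΦ1 : ∀ f v, v ≠ x.1 → v ≠ x.2 → Φ f v = f v := by
      intro f v h1 h2
      simp [Φ, Function.update_of_ne h2, Function.update_of_ne h1]
    have hmaps : ∀ f ∈ A', Φ f ∈ B := by
      intro f hf
      rw [hB, Finset.mem_filter]
      refine ⟨?_, ?_, ?_⟩
      · rw [hA', badSet, Finset.mem_filter] at hf ⊢
        refine ⟨Finset.mem_univ _, fun y hy => ?_⟩
        obtain ⟨h1, h2, h3, h4⟩ := hxM y hy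
        rw [hΦ1 f y.1 h1 h2, hΦ1 f y.2 h3 h4]
        exact hf.2 y hy
      · by_cases h : x.1 = x.2
        · simp [Φ, h]
        · simp [Φ, Function.update_of_ne h]
      · simp [Φ]
    have hfib : ∀ g ∈ B, (A'.filter (fun f => Φ f = g)).card ≤ 16 := by
      intro g _
      have h16 : (univ : Finset (Fin 4 × Fin 4)).card = 16 := by simp
      rw [← h16]
      refine Finset.card_le_card_of_injOn (fun f => (f x.1, f x.2))
        (fun _ _ => Finset.mem_coe.mpr (Finset.mem_univ _)) ?_
      intro f hf f' hf' hff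
      have hf := (Finset.mem_filter.mp (Finset.mem_coe.mp hf)).2
      have hf' := (Finset.mem_filter.mp (Finset.mem_coe.mp hf')).2
      have h1 : f x.1 = f' x.1 := congrArg Prod.fst hff
      have h2 : f x.2 = f' x.2 := congrArg Prod.snd hff
      funext v
      by_cases hv1 : v = x.1
      · rw [hv1, h1]
      · by_cases hv2 : v = x.2
        · rw [hv2, h2]
        · rw [← hΦ1 f v hv1 hv2, ← hΦ1 f' v hv1 hv2, hf, hf']
    have h16 : A'.card ≤ 16 * B.card :=
      Finset.card_le_mul_card_image_of_maps_to hmaps 16 hfib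
    rw [Finset.card_insert_of_notMem hx, hcard]
    have h15 : 16 * (A'.card - B.card) ≤ 15 * A'.card := by omega
    calc (A'.card - B.card) * 16 ^ (M.card + 1)
        = (16 * (A'.card - B.card)) * 16 ^ M.card := by ring
      _ ≤ (15 * A'.card) * 16 ^ M.card := Nat.mul_le_mul_right _ h15
      _ = 15 * (A'.card * 16 ^ M.card) := by ring
      _ ≤ 15 * (15 ^ M.card * 4 ^ Fintype.card V) := Nat.mul_le_mul_left _ ih'
      _ = 15 ^ (M.card + 1) * 4 ^ Fintype.card V := by ring

/-- Existence of a small set meeting every large matching of a given family in a full pair. -/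
theorem exists_core {I : Type*} [DecidableEq I] (S : Finset I) (M : I → Finset (V × V)) (m : ℕ)
    (hdisj : ∀ i ∈ S, ∀ x ∈ M i, ∀ y ∈ M i, x ≠ y →
      x.1 ≠ y.1 ∧ x.1 ≠ y.2 ∧ x.2 ≠ y.1 ∧ x.2 ≠ y.2)
    (hm : ∀ i ∈ S, m ≤ (M i).card)
    (hnum : 4 * S.card * 15 ^ m < 16 ^ m) :
    ∃ K : Finset V, 4 * K.card ≤ Fintype.card V ∧
      ∀ i ∈ S, ∃ x ∈ M i, x.1 ∈ K ∧ x.2 ∈ K := by
  classical
  have hsub : ∀ i ∈ S, ∃ M' ⊆ M i, M'.card = m := fun i hi =>
    Finset.exists_subset_card_eq (hm i hi)
  choose! M' hM' hM'c using hsub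
  have hbad : ∀ p ∈ S ×ˢ (univ : Finset (Fin 4)),
      (badSet p.2 (M' p.1)).card * 16 ^ m ≤ 15 ^ m * 4 ^ Fintype.card V := by
    intro p hp
    have hp1 := (Finset.mem_product.mp hp).1
    have := badSet_card p.2 (M' p.1) (fun x hx y hy hxy =>
      hdisj p.1 hp1 x (hM' p.1 hp1 hx) y (hM' p.1 hp1 hy) hxy)
    rwa [hM'c p.1 hp1] at this
  have hunion : ((S ×ˢ (univ : Finset (Fin 4))).biUnion
      (fun p => badSet p.2 (M' p.1))).card < Fintype.card (V → Fin 4) := by
    have h1 : ((S ×ˢ (univ : Finset (Fin 4))).biUnion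
        (fun p => badSet p.2 (M' p.1))).card * 16 ^ m ≤
        (4 * S.card) * (15 ^ m * 4 ^ Fintype.card V) := by
      calc _ ≤ (∑ p ∈ S ×ˢ (univ : Finset (Fin 4)), (badSet p.2 (M' p.1)).card) * 16 ^ m :=
            Nat.mul_le_mul_right _ Finset.card_biUnion_le
        _ = ∑ p ∈ S ×ˢ (univ : Finset (Fin 4)), (badSet p.2 (M' p.1)).card * 16 ^ m := by
            rw [Finset.sum_mul]
        _ ≤ ∑ p ∈ S ×ˢ (univ : Finset (Fin 4)), 15 ^ m * 4 ^ Fintype.card V :=
            Finset.sum_le_sum hbad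
        _ = (4 * S.card) * (15 ^ m * 4 ^ Fintype.card V) := by
            rw [Finset.sum_const, Finset.card_product]
            simp; ring
    have h2 : (4 * S.card) * (15 ^ m * 4 ^ Fintype.card V) <
        16 ^ m * 4 ^ Fintype.card V := by
      have : 0 < 4 ^ Fintype.card V := by positivity
      calc _ = (4 * S.card * 15 ^ m) * 4 ^ Fintype.card V := by ring
        _ < _ := Nat.mul_lt_mul_of_pos_right hnum this
    have h3 : Fintype.card (V → Fin 4) = 4 ^ Fintype.card V := by simp
    rw [h3]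
    have h16 : 0 < 16 ^ m := by positivity
    have h4 := lt_of_le_of_lt h1 h2
    rw [mul_comm (16 ^ m)] at h4
    exact Nat.lt_of_mul_lt_mul_right h4
  obtain ⟨f, hf⟩ : ∃ f : V → Fin 4, f ∉ (S ×ˢ (univ : Finset (Fin 4))).biUnion
      (fun p => badSet p.2 (M' p.1)) := by
    by_contra hcon
    push Not at hcon
    have : (S ×ˢ (univ : Finset (Fin 4))).biUnion
      (fun p => badSet p.2 (M' p.1)) = univ := Finset.eq_univ_iff_forall.mpr hcon
    rw [this, Finset.card_univ] at hunion
    exact lt_irrefl _ hunion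
  -- smallest colour class
  obtain ⟨col, hcol⟩ : ∃ col : Fin 4,
      4 * (univ.filter (fun v => f v = col)).card ≤ Fintype.card V := by
    by_contra hcon
    push Not at hcon
    have hsum : ∑ col : Fin 4, (univ.filter (fun v => f v = col)).card = Fintype.card V := by
      rw [← Finset.card_univ (α := V)]
      exact (Finset.card_eq_sum_card_fiberwise (fun _ _ => Finset.mem_coe.mpr (Finset.mem_univ _))).symm
    have h0 := hcon 0
    have h1 := hcon 1
    have h2 := hcon 2
    have h3 := hcon 3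
    rw [Fin.sum_univ_four] at hsum
    omega
  refine ⟨univ.filter (fun v => f v = col), hcol, ?_⟩
  intro i hi
  have hnot : f ∉ badSet col (M' i) := by
    intro hmem
    apply hf
    rw [Finset.mem_biUnion]
    exact ⟨(i, col), Finset.mem_product.mpr ⟨hi, Finset.mem_univ _⟩, hmem⟩
  simp only [badSet, Finset.mem_filter, Finset.mem_univ, true_and, not_forall, not_not] at hnot
  obtain ⟨x, hx, hxc⟩ := hnot
  refine ⟨x, hM' i hi hx, ?_, ?_⟩
  · simp [hxc.1]
  · simp [hxc.2]

end Pool.Agent.MP_02bc1b_co
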