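import Pool.Agent.Lib.MP_02bc1b_co.Kloosterman

set_option linter.unusedSectionVars false

namespace Pool.Agent.MP_02bc1b_co

open Finset

lemma sum_close {α β : Type*} [DecidableEq α] [DecidableEq β] (A : Finset α) (B : Finset β)
    (f : α → ℤ) (h : β → ℤ) (hf : ∀ x, |f x| ≤ 1) (hh : ∀ y, |h y| ≤ 1)
    (S0 : Finset α) (hS : S0 ⊆ A) (φ : α → β) (hφ : Set.InjOn φ S0)
    (hm : ∀ x ∈ S0, φ x ∈ B) (heq : ∀ x ∈ S0, f x = h (φ x)) :
    |∑ x ∈ A, f x - ∑ y ∈ B, h y| ≤ ((A.card : ℤ) - S0.card) + ((B.card : ℤ) - S0.card) := by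
  have hI : (S0.image φ) ⊆ B := by
    intro y hy
    obtain ⟨x, hx, rfl⟩ := Finset.mem_image.mp hy
    exact hm x hx
  have h1 : ∑ x ∈ A, f x = ∑ x ∈ A \ S0, f x + ∑ x ∈ S0, f x :=
    (Finset.sum_sdiff hS).symm
  have h2 : ∑ y ∈ B, h y = ∑ y ∈ B \ (S0.image φ), h y + ∑ y ∈ S0.image φ, h y :=
    (Finset.sum_sdiff hI).symm
  have h3 : ∑ y ∈ S0.image φ, h y = ∑ x ∈ S0, f x := by
    rw [Finset.sum_image (fun x hx y hy hxy => hφ hx hy hxy)]
    exact Finset.sum_congr rfl (fun x hx => (heq x hx).symm)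
  have hb1 : |∑ x ∈ A \ S0, f x| ≤ ((A \ S0).card : ℤ) := by
    refine (Finset.abs_sum_le_sum_abs _ _).trans ?_
    refine (Finset.sum_le_sum (fun x _ => hf x)).trans ?_
    simp
  have hb2 : |∑ y ∈ B \ (S0.image φ), h y| ≤ ((B \ (S0.image φ)).card : ℤ) := by
    refine (Finset.abs_sum_le_sum_abs _ _).trans ?_
    refine (Finset.sum_le_sum (fun x _ => hh x)).trans ?_
    simp
  have hc1 : ((A \ S0).card : ℤ) = (A.card : ℤ) - S0.card := by
    rw [Finset.card_sdiff_of_subset hS]
    exact Nat.cast_sub (Finset.card_le_card hS)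
  have hc2 : ((B \ (S0.image φ)).card : ℤ) = (B.card : ℤ) - S0.card := by
    rw [Finset.card_sdiff_of_subset hI, Finset.card_image_of_injOn hφ]
    refine Nat.cast_sub ?_
    rw [← Finset.card_image_of_injOn hφ]
    exact Finset.card_le_card hI
  rw [h1, h2, h3]
  have : ∑ x ∈ A \ S0, f x + ∑ x ∈ S0, f x -
      (∑ y ∈ B \ (S0.image φ), h y + ∑ x ∈ S0, f x) =
      ∑ x ∈ A \ S0, f x - ∑ y ∈ B \ (S0.image φ), h y := by ring
  rw [this]
  calc |∑ x ∈ A \ S0, f x - ∑ y ∈ B \ (S0.image φ), h y|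
      ≤ |∑ x ∈ A \ S0, f x| + |∑ y ∈ B \ (S0.image φ), h y| := abs_sub _ _
    _ ≤ _ := by rw [← hc1, ← hc2]; exact add_le_add hb1 hb2

variable {F : Type*} [Field F] [Fintype F] [DecidableEq F]
variable {τ : F →+ ZMod 2}

lemma sum_chi_inv (hτ : τ ≠ 0) : ∑ x : F, chi τ x⁻¹ = 0 := by
  rw [← sum_chi hτ]
  exact Fintype.sum_equiv ((inv_involutive (G := F)).toPerm _) _ _ (fun x => rfl)

/-- the second coordinate function -/
def bf (a d e c : F) : F := d + e * (a + c)⁻¹

lemma bf_bij (a d : F) {e : F} (he : e ≠ 0) : Function.Bijective (bf a d e) := by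
  have hinj : Function.Injective (bf a d e) := by
    intro c c' h
    unfold bf at h
    have h1 : e * (a + c)⁻¹ = e * (a + c')⁻¹ := add_left_cancel h
    have h2 : (a + c)⁻¹ = (a + c')⁻¹ := mul_left_cancel₀ he h1
    exact add_left_cancel (inv_injective h2)
  exact Finite.injective_iff_bijective.mp hinj

lemma sum_chi_bf_inv (hτ : τ ≠ 0) (a d : F) {e : F} (he : e ≠ 0) :
    ∑ c : F, chi τ (bf a d e c)⁻¹ = 0 := by
  rw [← sum_chi_inv hτ]
  exact Fintype.sum_bijective _ (bf_bij a d he) _ _ (fun x => rfl)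

/-- solutions -/
def Nset (τ : F →+ ZMod 2) (a d e : F) : Finset F :=
  univ.filter (fun c => τ c⁻¹ = 1 ∧ τ (bf a d e c)⁻¹ = 1)

/-- the correlation sum -/
def Dsum (τ : F →+ ZMod 2) (a d e : F) : ℤ := ∑ c : F, chi τ (c⁻¹ + (bf a d e c)⁻¹)

lemma four_mul_card (hτ : τ ≠ 0) (a d : F) {e : F} (he : e ≠ 0) :
    4 * ((Nset τ a d e).card : ℤ) = Fintype.card F + Dsum τ a d e := by
  have h1 : ∑ c : F, (1 - chi τ c⁻¹) * (1 - chi τ (bf a d e c)⁻¹) =
      4 * ((Nset τ a d e).card : ℤ) := by
    rw [Nset, Finset.card_filter]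
    push_cast
    rw [Finset.mul_sum]
    refine Finset.sum_congr rfl (fun c _ => ?_)
    rw [one_sub_chi, one_sub_chi]
    by_cases hA : τ c⁻¹ = 1 <;> by_cases hB : τ (bf a d e c)⁻¹ = 1 <;> simp [hA, hB]
  rw [← h1]
  have h2 : ∀ c : F, (1 - chi τ c⁻¹) * (1 - chi τ (bf a d e c)⁻¹) =
      1 - chi τ c⁻¹ - chi τ (bf a d e c)⁻¹ + chi τ (c⁻¹ + (bf a d e c)⁻¹) := by
    intro c; rw [chi_add]; ring
  simp_rw [h2]
  rw [Finset.sum_add_distrib, Finset.sum_sub_distrib, Finset.sum_sub_distrib,
    sum_chi_inv hτ, sum_chi_bf_inv hτ a d he]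
  simp [Dsum]

lemma Dsum_bound_generic [CharP F 2] {a d r : F} (hd : d ≠ 0)
    (hr : r ≠ 0) (hg : a + r ≠ 0) :
    ∃ x y : Fˣ, |Dsum τ a d (d * r)| ≤ |kl τ (x : F) (y : F)| + 5 := by
  set g : F := a + r with hgdef
  have two : (2 : F) = 0 := CharTwo.two_eq_zero
  have hα : g⁻¹ ≠ 0 := inv_ne_zero hg
  have hβ : r / (d * g) ≠ 0 := div_ne_zero hr (mul_ne_zero hd hg)
  refine ⟨Units.mk0 _ hα, Units.mk0 _ hβ, ?_⟩
  set κ : F := 1 / d + 1 / g + r / (d * g) with hκ
  let h : Fˣ → ℤ := fun z => chi τ (κ + (g⁻¹ * z + r / (d * g) * (z : F)⁻¹))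
  have hsum : ∑ z : Fˣ, h z = chi τ κ * kl τ (g⁻¹) (r / (d * g)) := by
    simp only [h, kl]
    rw [Finset.mul_sum]
    exact Finset.sum_congr rfl (fun z _ => chi_add _ _ _)
  let S0 : Finset F := univ \ {0, a, g}
  let φ : F → Fˣ := fun c => if hc : (c + g) / c ≠ 0 then Units.mk0 _ hc else 1
  have hS0 : ∀ c ∈ S0, c ≠ 0 ∧ c ≠ a ∧ c ≠ g := by
    intro c hc
    simp only [S0, Finset.mem_sdiff, Finset.mem_univ, true_and, Finset.mem_insert,
      Finset.mem_singleton, not_or] at hc
    exact hc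
  have hcg : ∀ c : F, c ≠ g → c + g ≠ 0 := by
    intro c hc h0
    exact hc (by linear_combination h0 - g * two)
  have hφ : ∀ c ∈ S0, ((φ c : Fˣ) : F) = (c + g) / c := by
    intro c hc
    obtain ⟨h0, h1, h2⟩ := hS0 c hc
    have : (c + g) / c ≠ 0 := div_ne_zero (hcg c h2) h0
    simp only [φ]
    rw [dif_pos this]
    rfl
  have key := sum_close (univ : Finset F) (univ : Finset Fˣ)
    (fun c => chi τ (c⁻¹ + (bf a d (d * r) c)⁻¹)) h (fun x => chi_abs_le _ _)
    (fun x => chi_abs_le _ _) S0 (Finset.subset_univ _) φ ?_ (fun x _ => Finset.mem_univ _) ?_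
  · have hcardA : ((univ : Finset F).card : ℤ) = Fintype.card F := by simp
    have hcardB : ((univ : Finset Fˣ).card : ℤ) = Fintype.card F - 1 := by
      have := Fintype.card_eq_card_units_add_one (α := F)
      rw [Finset.card_univ]; omega
    have hcardS : (Fintype.card F : ℤ) - 3 ≤ (S0.card : ℤ) := by
      have h1 : Fintype.card F ≤ S0.card + 3 := by
        have h2 := Finset.le_card_sdiff ({0, a, g} : Finset F) (univ : Finset F)
        have h3 : ({0, a, g} : Finset F).card ≤ 3 := Finset.card_le_three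
        rw [Finset.card_univ] at h2
        simp only [S0]
        omega
      omega
    have hd' : |Dsum τ a d (d * r) - chi τ κ * kl τ (g⁻¹) (r / (d * g))| ≤ 5 := by
      rw [← hsum]
      refine le_trans key ?_
      rw [hcardA, hcardB]
      linarith
    have h5 : |chi τ κ * kl τ (g⁻¹) (r / (d * g))| = |kl τ (g⁻¹) (r / (d * g))| := by
      rw [abs_mul, chi_abs, one_mul]
    have h6 : |Dsum τ a d (d * r)| ≤
        |Dsum τ a d (d * r) - chi τ κ * kl τ (g⁻¹) (r / (d * g))| +
        |chi τ κ * kl τ (g⁻¹) (r / (d * g))| := by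
      have := abs_add_le (Dsum τ a d (d * r) - chi τ κ * kl τ (g⁻¹) (r / (d * g)))
        (chi τ κ * kl τ (g⁻¹) (r / (d * g)))
      rwa [sub_add_cancel] at this
    simp only [Units.val_mk0]
    linarith
  · intro c hc c' hc' hcc
    have hc := Finset.mem_coe.mp hc
    have hc' := Finset.mem_coe.mp hc'
    have e1 : (c + g) / c = (c' + g) / c' := by rw [← hφ c hc, ← hφ c' hc', hcc]
    have h0 := (hS0 c hc).1
    have h0' := (hS0 c' hc').1
    rw [div_eq_div_iff h0 h0'] at e1
    have : g * (c' - c) = 0 := by linear_combination e1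
    rcases mul_eq_zero.mp this with h | h
    · exact absurd h hg
    · exact (sub_eq_zero.mp h).symm
  · intro c hc
    obtain ⟨h0, h1, h2⟩ := hS0 c hc
    have hac : a + c ≠ 0 := by
      intro hh
      exact h1 (by linear_combination hh - a * two)
    have hcg' := hcg c h2
    simp only [h]
    rw [hφ c hc]
    congr 1
    have hb : bf a d (d * r) c = d * (c + g) / (a + c) := by
      unfold bf
      rw [hgdef]
      field_simp
      ring
    rw [hb, inv_div, inv_div]
    have key2 : c⁻¹ + (a + c) / (d * (c + g)) -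
        (κ + (g⁻¹ * ((c + g) / c) + r / (d * g) * (c / (c + g)))) =
        2 * (-(1 / g + r * c / (d * g * (c + g)) + r / (d * (c + g)))) := by
      rw [hκ]
      have har : a = g - r := by rw [hgdef]; ring
      rw [har]
      field_simp
      ring
    rw [two, zero_mul] at key2
    exact sub_eq_zero.mp key2

lemma Dsum_bound_special [CharP F 2] (hτ : τ ≠ 0) {a d : F} (ha : a ≠ 0) (hd : d ≠ 0)
    (had : a ≠ d) : |Dsum τ a d (d * a)| ≤ 4 := by
  have two : (2 : F) = 0 := CharTwo.two_eq_zero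
  set lam : F := 1 + a / d with hlam
  have hlam0 : lam ≠ 0 := by
    intro h0
    apply had
    have : d * lam = d + a := by rw [hlam]; field_simp
    rw [h0, mul_zero] at this
    linear_combination -this - d * two
  let h : F → ℤ := fun c => chi τ (1 / d + lam * c⁻¹)
  have hsum : ∑ z : F, h z = 0 := by
    simp only [h, chi_add]
    rw [← Finset.mul_sum]
    have : ∑ c : F, chi τ (lam * c⁻¹) = 0 := by
      rw [← sum_chi hτ]
      exact Fintype.sum_equiv (((inv_involutive (G := F)).toPerm _).trans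
        (Equiv.mulLeft₀ lam hlam0)) _ _ (fun x => rfl)
    rw [this, mul_zero]
  let S0 : Finset F := univ \ {0, a}
  have hS0 : ∀ c ∈ S0, c ≠ 0 ∧ c ≠ a := by
    intro c hc
    simp only [S0, Finset.mem_sdiff, Finset.mem_univ, true_and, Finset.mem_insert,
      Finset.mem_singleton, not_or] at hc
    exact hc
  have key := sum_close (univ : Finset F) (univ : Finset F)
    (fun c => chi τ (c⁻¹ + (bf a d (d * a) c)⁻¹)) h (fun x => chi_abs_le _ _)
    (fun x => chi_abs_le _ _) S0 (Finset.subset_univ _) id (Function.injective_id.injOn)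
    (fun x _ => Finset.mem_univ _) ?_
  · have hcardA : ((univ : Finset F).card : ℤ) = Fintype.card F := by simp
    have hcardS : (Fintype.card F : ℤ) - 2 ≤ (S0.card : ℤ) := by
      have h1 : Fintype.card F ≤ S0.card + 2 := by
        have h2 := Finset.le_card_sdiff ({0, a} : Finset F) (univ : Finset F)
        have h3 : ({0, a} : Finset F).card ≤ 2 := Finset.card_le_two
        rw [Finset.card_univ] at h2
        simp only [S0]
        omega
      omega
    rw [hsum, sub_zero] at key
    refine le_trans key ?_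
    rw [hcardA]
    linarith
  · intro c hc
    obtain ⟨h0, h1⟩ := hS0 c hc
    have hac : a + c ≠ 0 := by
      intro hh
      exact h1 (by linear_combination hh - a * two)
    simp only [h, id]
    congr 1
    have hb : bf a d (d * a) c = d * c / (a + c) := by
      unfold bf
      field_simp
      linear_combination a * two
    rw [hb, inv_div, hlam]
    have key2 : c⁻¹ + (a + c) / (d * c) - (1 / d + (1 + a / d) * c⁻¹) = 0 := by
      field_simp
      ring
    exact sub_eq_zero.mp key2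

/-- Main counting estimate. -/
lemma Nset_card_ge [CharP F 2] (hτ : τ ≠ 0) (hq : 1024 ≤ Fintype.card F) {a d e : F}
    (ha : a ≠ 0) (hd : d ≠ 0) (he : e ≠ 0) (hne : ¬ (a = d ∧ e = a * d)) :
    Fintype.card F ≤ 8 * ((Nset τ a d e).card - 2) := by
  have two : (2 : F) = 0 := CharTwo.two_eq_zero
  have hqz : (1024 : ℤ) ≤ Fintype.card F := by exact_mod_cast hq
  -- bound on D
  have hD : 4 * |Dsum τ a d e| ≤ Fintype.card F + 20 := by
    have her : e = d * (e / d) := by field_simp
    by_cases hg : a + e / d = 0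
    · have hea : e / d = a := by linear_combination hg - a * two
      have had : a ≠ d := by
        intro h
        apply hne
        refine ⟨h, ?_⟩
        rw [her, hea, mul_comm]
      rw [her, hea]
      have := Dsum_bound_special (τ := τ) hτ ha hd had
      linarith
    · obtain ⟨x, y, hxy⟩ := Dsum_bound_generic (τ := τ) (a := a) hd (div_ne_zero he hd) hg
      rw [← her] at hxy
      have hk := kl_bound (τ := τ) hτ x y
      set K : ℤ := kl τ (x : F) (y : F) with hK
      set q : ℤ := (Fintype.card F : ℤ) with hqq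
      have hK4 : 4 * |K| ≤ q := by
        by_contra hcon
        push Not at hcon
        have h1 : q ^ 4 < (4 * |K|) ^ 4 := by
          have h0 : 0 ≤ q := by linarith
          exact pow_lt_pow_left₀ hcon h0 (by norm_num)
        have h2 : (4 * |K|) ^ 4 = 256 * K ^ 4 := by
          rw [mul_pow, ← abs_pow, abs_of_nonneg (by positivity : (0 : ℤ) ≤ K ^ 4)]
          norm_num
        rw [h2] at h1
        have h3 : q ^ 4 < 768 * q ^ 3 := by linarith
        have h4 : 0 < q ^ 3 := by positivity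
        nlinarith
      linarith
  have h4 := four_mul_card (τ := τ) hτ a d he
  have hDl : -|Dsum τ a d e| ≤ Dsum τ a d e := neg_abs_le _
  have hN : 3 * (Fintype.card F : ℤ) - 20 ≤ 16 * ((Nset τ a d e).card : ℤ) := by linarith
  omega

end Pool.Agent.MP_02bc1b_co
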