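import Mathlib

namespace Pool.Agent.MP_02bc1b_co

/-- `G` is `F`-saturated: `G` contains no copy of `F` (as a not necessarily induced subgraph),
but for every pair of distinct non-adjacent vertices `u, v` the graph `G + uv` contains a
copy of `F`. -/
def IsSaturated {V W : Type*} (F : SimpleGraph W) (G : SimpleGraph V) : Prop :=
  F.Free G ∧ ∀ u v : V, u ≠ v → ¬ G.Adj u v → F.IsContained (G ⊔ SimpleGraph.edge u v)

/-- `sat n H F` is the least number of (not necessarily induced, unlabelled) copies of `H` in an
`F`-saturated graph on `n` vertices. -/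
noncomputable def sat (n : ℕ) {α β : Type*} (H : SimpleGraph α) (F : SimpleGraph β) : ℕ :=
  sInf {m : ℕ | ∃ G : SimpleGraph (Fin n), IsSaturated F G ∧ G.copyCount H = m}

end Pool.Agent.MP_02bc1b_co
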