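import Pool.Agent.Lib.MP_02bc1b_co.Count
import Pool.Agent.Lib.MP_02bc1b_co.Coloring
import Pool.Agent.Lib.MP_02bc1b_co.Defs

set_option linter.unusedSectionVars false

namespace Pool.Agent.MP_02bc1b_co

open Finset SimpleGraph

section general

variable {V : Type*}

/-- abstract passage from a `core` to all intermediate vertex sets -/
lemma saturated_comap (G : SimpleGraph V)
    (hC4 : ∀ u v b d, u ≠ v → b ≠ d → G.Adj u b → G.Adj b v → G.Adj v d → G.Adj d u → False)
    (K : Finset V)
    (hcore : ∀ u v, u ≠ v → ¬ G.Adj u v →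
      ∃ P ∈ K, ∃ Q ∈ K, G.Adj u P ∧ G.Adj P Q ∧ G.Adj Q v ∧ P ≠ v ∧ Q ≠ u)
    {n : ℕ} (ι : Fin n → V) (hι : Function.Injective ι) (hK : ∀ x ∈ K, ∃ i, ι i = x) :
    IsSaturated (cycleGraph 4) (G.comap ι) := by
  constructor
  · rintro ⟨f⟩
    have hadj : ∀ i j : Fin 4, (cycleGraph 4).Adj i j → G.Adj (ι (f i)) (ι (f j)) := by
      intro i j hij
      exact f.toHom.map_rel hij
    have hne : ∀ i j : Fin 4, i ≠ j → ι (f i) ≠ ι (f j) := by
      intro i j hij h
      exact hij (f.injective (hι h))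
    exact hC4 (ι (f 0)) (ι (f 2)) (ι (f 1)) (ι (f 3)) (hne _ _ (by decide)) (hne _ _ (by decide))
      (hadj 0 1 (by decide)) (hadj 1 2 (by decide)) (hadj 2 3 (by decide)) (hadj 3 0 (by decide))
  · intro u v huv hnadj
    obtain ⟨P, hP, Q, hQ, h1, h2, h3, h4, h5⟩ := hcore (ι u) (ι v) (fun h => huv (hι h))
      (fun h => hnadj h)
    obtain ⟨p, rfl⟩ := hK P hP
    obtain ⟨r, rfl⟩ := hK Q hQ
    let g : Fin 4 → Fin n := ![u, p, r, v]
    have hup : u ≠ p := by rintro rfl; exact G.loopless.irrefl _ h1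
    have hpr : p ≠ r := by rintro rfl; exact G.loopless.irrefl _ h2
    have hrv : r ≠ v := by rintro rfl; exact G.loopless.irrefl _ h3
    have hpv : p ≠ v := fun h => h4 (by rw [h])
    have hur : u ≠ r := fun h => h5 (by rw [h])
    have hginj : Function.Injective g := by
      intro i j hij
      fin_cases i <;> fin_cases j <;> simp [g] at hij ⊢ <;>
        first
        | exact absurd hij huv
        | exact absurd hij.symm huv
        | exact absurd hij hup
        | exact absurd hij.symm hup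
        | exact absurd hij hpr
        | exact absurd hij.symm hpr
        | exact absurd hij hrv
        | exact absurd hij.symm hrv
        | exact absurd hij hpv
        | exact absurd hij.symm hpv
        | exact absurd hij hur
        | exact absurd hij.symm hur
    have e1 : (G.comap ι ⊔ SimpleGraph.edge u v).Adj u p := Or.inl h1
    have e2 : (G.comap ι ⊔ SimpleGraph.edge u v).Adj p r := Or.inl h2
    have e3 : (G.comap ι ⊔ SimpleGraph.edge u v).Adj r v := Or.inl h3
    have e4 : (G.comap ι ⊔ SimpleGraph.edge u v).Adj v u := by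
      right
      rw [SimpleGraph.edge_adj]
      exact ⟨Or.inr ⟨rfl, rfl⟩, huv.symm⟩
    refine ⟨⟨⟨g, ?_⟩, hginj⟩⟩
    intro i j hij
    fin_cases i <;> fin_cases j <;>
      first
      | exact absurd hij (by decide)
      | exact e1
      | exact e1.symm
      | exact e2
      | exact e2.symm
      | exact e3
      | exact e3.symm
      | exact e4
      | exact e4.symm

lemma cliqueFree_comap (G : SimpleGraph V)
    (htri : ∀ a b c, G.Adj a b → G.Adj b c → G.Adj c a → False)
    {n : ℕ} (ι : Fin n → V) : (G.comap ι).CliqueFree 3 := by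
  intro s hs
  rw [SimpleGraph.is3Clique_iff] at hs
  obtain ⟨a, b, c, h1, h2, h3, -⟩ := hs
  exact htri _ _ _ h1 h3 h2.symm

end general

variable {F : Type*} [Field F] [Fintype F] [DecidableEq F] [CharP F 2]

/-- vertices -/
abbrev VV (τ : F →+ ZMod 2) : Type _ := {p : F × F // τ (p.1)⁻¹ = 1}

/-- the polarity type graph -/
def polG (τ : F →+ ZMod 2) : SimpleGraph (VV τ) where
  Adj p r := p.1.2 + r.1.2 = p.1.1 * r.1.1
  symm := ⟨fun p r h => by rw [add_comm, h, mul_comm]⟩
  loopless := ⟨fun p h => by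
    have h0 : p.1.1 * p.1.1 = 0 := by rw [← h]; exact CharTwo.add_self_eq_zero _
    have h1 : p.1.1 = 0 := mul_self_eq_zero.mp h0
    have h2 := p.2
    rw [h1] at h2
    simp at h2⟩

variable {τ : F →+ ZMod 2}

lemma VV.ne_zero (p : VV τ) : p.1.1 ≠ 0 := by
  intro h
  have h2 := p.2
  rw [h] at h2
  simp at h2

lemma VV.ext' {p r : VV τ} (h1 : p.1.1 = r.1.1) (h2 : p.1.2 = r.1.2) : p = r :=
  Subtype.ext (Prod.ext h1 h2)

lemma polG_adj (p r : VV τ) : (polG τ).Adj p r ↔ p.1.2 + r.1.2 = p.1.1 * r.1.1 := Iff.rfl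

lemma polG_noC4 : ∀ u v b d : VV τ, u ≠ v → b ≠ d → (polG τ).Adj u b → (polG τ).Adj b v →
    (polG τ).Adj v d → (polG τ).Adj d u → False := by
  intro u v b d huv hbd h1 h2 h3 h4
  rw [polG_adj] at h1 h2 h3 h4
  have two : (2 : F) = 0 := CharTwo.two_eq_zero
  have key : (u.1.1 - v.1.1) * (b.1.1 - d.1.1) = 0 := by
    linear_combination -h1 + h2 - h3 + h4
  rcases mul_eq_zero.mp key with h | h
  · apply huv
    have h' : u.1.1 = v.1.1 := sub_eq_zero.mp h
    refine VV.ext' h' ?_
    rw [h'] at h1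
    linear_combination h1 - h2
  · apply hbd
    have h' : b.1.1 = d.1.1 := sub_eq_zero.mp h
    refine VV.ext' h' ?_
    rw [h'] at h1
    linear_combination h1 - h4

lemma polG_noTri : ∀ a b c : VV τ, (polG τ).Adj a b → (polG τ).Adj b c → (polG τ).Adj c a →
    False := by
  intro a b c h1 h2 h3
  rw [polG_adj] at h1 h2 h3
  have two : (2 : F) = 0 := CharTwo.two_eq_zero
  have ha := a.ne_zero
  have hb := b.ne_zero
  have hc := c.ne_zero
  have h4 : a.1.1 * b.1.1 + b.1.1 * c.1.1 + c.1.1 * a.1.1 = 0 := by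
    linear_combination -h1 - h2 - h3 + (a.1.2 + b.1.2 + c.1.2) * two
  have h5 : (a.1.1)⁻¹ + (b.1.1)⁻¹ + (c.1.1)⁻¹ = 0 := by
    field_simp
    linear_combination h4
  have h6 : τ ((a.1.1)⁻¹ + (b.1.1)⁻¹ + (c.1.1)⁻¹) = 0 := by rw [h5, map_zero]
  rw [map_add, map_add, a.2, b.2, c.2] at h6
  revert h6
  decide

/-- the family of candidate middle pairs -/
noncomputable def MM (τ : F →+ ZMod 2) (i : VV τ × VV τ) : Finset (VV τ × VV τ) :=
  open Classical in
  univ.filter (fun x => (polG τ).Adj i.1 x.1 ∧ (polG τ).Adj x.1 x.2 ∧ (polG τ).Adj x.2 i.2 ∧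
    x.1 ≠ i.2 ∧ x.2 ≠ i.1 ∧ x.2.1.1 ≠ (i.1.1.2 + i.2.1.2) / (i.1.1.1 + i.2.1.1))

lemma mem_MM {i : VV τ × VV τ} {x : VV τ × VV τ} : x ∈ MM τ i ↔
    ((polG τ).Adj i.1 x.1 ∧ (polG τ).Adj x.1 x.2 ∧ (polG τ).Adj x.2 i.2 ∧
    x.1 ≠ i.2 ∧ x.2 ≠ i.1 ∧ x.2.1.1 ≠ (i.1.1.2 + i.2.1.2) / (i.1.1.1 + i.2.1.1)) := by
  classical
  simp [MM]

lemma MM_card [Fintype (VV τ)] (hτ : τ ≠ 0) (hq : 1024 ≤ Fintype.card F) (u v : VV τ)
    (huv : u ≠ v) (hnadj : ¬ (polG τ).Adj u v) :
    Fintype.card F ≤ 8 * (MM τ (u, v)).card := by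
  have two : (2 : F) = 0 := CharTwo.two_eq_zero
  obtain ⟨⟨a, x⟩, hu⟩ := u
  obtain ⟨⟨d, w⟩, hv⟩ := v
  have ha : a ≠ 0 := VV.ne_zero (τ := τ) ⟨⟨a, x⟩, hu⟩
  have hd : d ≠ 0 := VV.ne_zero (τ := τ) ⟨⟨d, w⟩, hv⟩
  set e : F := x + w + a * d with he
  have he0 : e ≠ 0 := by
    intro h0
    apply hnadj
    rw [polG_adj]
    change x + w = a * d
    linear_combination h0 - a * d * two
  have hne : ¬ (a = d ∧ e = a * d) := by
    rintro ⟨h1, h2⟩
    apply huv
    refine VV.ext' h1 ?_
    change x = w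
    linear_combination h2 - w * two
  have hN := Nset_card_ge (τ := τ) hτ hq ha hd he0 hne
  set c0 : F := (x + w) / (a + d) with hc0
  have hcard : (Nset τ a d e).card - 2 ≤ (((Nset τ a d e).erase a).erase c0).card := by
    have h1 := Finset.pred_card_le_card_erase (s := Nset τ a d e) (a := a)
    have h2 := Finset.pred_card_le_card_erase (s := (Nset τ a d e).erase a) (a := c0)
    omega
  have hsub : ((Nset τ a d e).erase a).erase c0 ⊆
      (MM τ (⟨⟨a, x⟩, hu⟩, ⟨⟨d, w⟩, hv⟩)).image (fun y => y.2.1.1) := by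
    intro c hc
    rw [Finset.mem_erase, Finset.mem_erase, Nset, Finset.mem_filter] at hc
    obtain ⟨hcc0, hca, -, hc1, hc2⟩ := hc
    have hac : a + c ≠ 0 := by
      intro hh
      exact hca (by linear_combination hh - a * two)
    set b : F := bf a d e c with hb
    have hprod : (a + c) * (b + d) = e := by
      rw [hb, bf]
      field_simp
      linear_combination (a + c) * d * two
    rw [Finset.mem_image]
    refine ⟨(⟨⟨b, x + a * b⟩, hc2⟩, ⟨⟨c, w + c * d⟩, hc1⟩), ?_, rfl⟩
    rw [mem_MM]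
    refine ⟨?_, ?_, ?_, ?_, ?_, ?_⟩
    · rw [polG_adj]
      change x + (x + a * b) = a * b
      linear_combination x * two
    · rw [polG_adj]
      change (x + a * b) + (w + c * d) = b * c
      linear_combination hprod + he + (x + w - b * c) * two
    · rw [polG_adj]
      change (w + c * d) + w = c * d
      linear_combination w * two
    · intro h
      have h1 : b = d := congrArg (fun z : VV τ => z.1.1) h
      rw [h1] at hprod
      apply he0
      rw [← hprod]
      linear_combination (a + c) * d * two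
    · intro h
      have h1 : c = a := congrArg (fun z : VV τ => z.1.1) h
      exact hca h1
    · exact hcc0
  have h3 := (Finset.card_le_card hsub).trans Finset.card_image_le
  omega

lemma MM_disj (u v : VV τ) (huv : u ≠ v) (hnadj : ¬ (polG τ).Adj u v) :
    ∀ y ∈ MM τ (u, v), ∀ z ∈ MM τ (u, v), y ≠ z →
      y.1 ≠ z.1 ∧ y.1 ≠ z.2 ∧ y.2 ≠ z.1 ∧ y.2 ≠ z.2 := by
  have two : (2 : F) = 0 := CharTwo.two_eq_zero
  obtain ⟨⟨a, x⟩, hu⟩ := u
  obtain ⟨⟨d, w⟩, hv⟩ := v
  have he0 : x + w + a * d ≠ 0 := by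
    intro h0
    apply hnadj
    rw [polG_adj]
    change x + w = a * d
    linear_combination h0 - a * d * two
  rintro ⟨⟨⟨b, s⟩, hb⟩, ⟨⟨c, t⟩, hc⟩⟩ hy ⟨⟨⟨b', s'⟩, hb'⟩, ⟨⟨c', t'⟩, hc'⟩⟩ hz hyz
  rw [mem_MM] at hy hz
  simp only [polG_adj] at hy hz
  obtain ⟨y1, y2, y3, -, -, y6⟩ := hy
  obtain ⟨z1, z2, z3, -, -, z6⟩ := hz
  have ey : (a + c) * (b + d) = x + w + a * d := by
    linear_combination -y1 - y2 - y3 + (s + t) * two
  have ez : (a + c') * (b' + d) = x + w + a * d := by
    linear_combination -z1 - z2 - z3 + (s' + t') * two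
  have hacne : a + c ≠ 0 := by
    intro h; rw [h, zero_mul] at ey; exact he0 ey.symm
  have hbdne : b + d ≠ 0 := by
    intro h; rw [h, mul_zero] at ey; exact he0 ey.symm
  have case1 : b = b' → c = c' := by
    intro h
    rw [← h, ← ey] at ez
    have := mul_right_cancel₀ hbdne ez
    exact (add_left_cancel this).symm
  have case2 : c = c' → b = b' := by
    intro h
    rw [← h, ← ey] at ez
    have := mul_left_cancel₀ hacne ez
    exact (add_right_cancel this).symm
  have fin : b = b' → c = c' → False := by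
    intro h h'
    apply hyz
    have hs : s = s' := by
      rw [← h] at z1
      linear_combination y1 - z1
    have ht : t = t' := by
      rw [← h'] at z3
      linear_combination y3 - z3
    subst h h' hs ht
    rfl
  refine ⟨?_, ?_, ?_, ?_⟩
  · intro h
    have h1 : b = b' := congrArg (fun z : VV τ => z.1.1) h
    exact fin h1 (case1 h1)
  · intro h
    have h1 : b = c' := congrArg (fun z : VV τ => z.1.1) h
    have h2 : s = t' := congrArg (fun z : VV τ => z.1.2) h
    have h3 : x + w = (a + d) * c' := by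
      rw [h1, h2] at y1
      linear_combination y1 + z3 - t' * two
    apply z6
    have had : a + d ≠ 0 := by
      intro h0
      rw [h0, zero_mul] at h3
      apply huv
      refine VV.ext' ?_ ?_
      · change a = d
        linear_combination h0 - d * two
      · change x = w
        linear_combination h3 - w * two
    rw [h3]
    field_simp
  · intro h
    have h1 : c = b' := congrArg (fun z : VV τ => z.1.1) h
    have h2 : t = s' := congrArg (fun z : VV τ => z.1.2) h
    have h3 : x + w = (a + d) * c := by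
      rw [← h1, ← h2] at z1
      linear_combination z1 + y3 - t * two
    apply y6
    have had : a + d ≠ 0 := by
      intro h0
      rw [h0, zero_mul] at h3
      apply huv
      refine VV.ext' ?_ ?_
      · change a = d
        linear_combination h0 - d * two
      · change x = w
        linear_combination h3 - w * two
    rw [h3]
    field_simp
  · intro h
    have h1 : c = c' := congrArg (fun z : VV τ => z.1.1) h
    exact fin (case2 h1) h1

end Pool.Agent.MP_02bc1b_co
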