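import Mathlib

set_option linter.unusedSectionVars false

namespace Pool.Agent.MP_02bc1b_co

open Finset

variable {F : Type*} [Field F] [Fintype F] [DecidableEq F]

/-- The sign character attached to an additive map to `ZMod 2`. -/
def chi (τ : F →+ ZMod 2) (x : F) : ℤ := if τ x = 0 then 1 else -1

section chi

variable (τ : F →+ ZMod 2)

lemma zmod2_cases (z : ZMod 2) : z = 0 ∨ z = 1 := by
  revert z; decide

lemma chi_zero : chi τ 0 = 1 := by simp [chi]

lemma chi_add (x y : F) : chi τ (x + y) = chi τ x * chi τ y := by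
  unfold chi
  rw [map_add]
  rcases zmod2_cases (τ x) with hx | hx <;> rcases zmod2_cases (τ y) with hy | hy <;>
    simp [hx, hy]
  decide

lemma chi_of_eq_one {x : F} (h : τ x = 1) : chi τ x = -1 := by simp [chi, h]

lemma chi_abs (x : F) : |chi τ x| = 1 := by
  unfold chi; split_ifs <;> simp

lemma chi_abs_le (x : F) : |chi τ x| ≤ 1 := (chi_abs τ x).le

lemma one_sub_chi (x : F) : 1 - chi τ x = if τ x = 1 then 2 else 0 := by
  unfold chi
  rcases zmod2_cases (τ x) with hx | hx <;> simp [hx]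

lemma chi_sum {ι : Type*} (s : Finset ι) (f : ι → F) :
    chi τ (∑ i ∈ s, f i) = ∏ i ∈ s, chi τ (f i) := by
  classical
  induction s using Finset.induction_on with
  | empty => simp [chi_zero]
  | insert a s ha ih => rw [Finset.sum_insert ha, Finset.prod_insert ha, chi_add, ih]

variable {τ}

lemma exists_ne_zero (hτ : τ ≠ 0) : ∃ x0, τ x0 ≠ 0 := by
  by_contra h
  push Not at h
  exact hτ (AddMonoidHom.ext h)

lemma sum_chi (hτ : τ ≠ 0) : ∑ x, chi τ x = 0 := by
  obtain ⟨x0, hx0⟩ := exists_ne_zero hτ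
  have h1 : ∑ x, chi τ (x + x0) = ∑ x, chi τ x :=
    Fintype.sum_equiv (Equiv.addRight x0) _ _ (fun x => rfl)
  have h2 : chi τ x0 = -1 := by simp [chi, hx0]
  have h3 : ∑ x, chi τ (x + x0) = - ∑ x, chi τ x := by
    rw [← Finset.sum_neg_distrib]
    exact Finset.sum_congr rfl (fun x _ => by rw [chi_add, h2]; ring)
  linarith

lemma sum_chi_mul (hτ : τ ≠ 0) (c : F) :
    ∑ x, chi τ (x * c) = if c = 0 then (Fintype.card F : ℤ) else 0 := by
  split_ifs with hc
  · subst hc; simp [chi_zero]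
  · rw [← sum_chi hτ]
    exact Fintype.sum_equiv (Equiv.mulRight₀ c hc) _ _ (fun x => rfl)

end chi

section kloosterman

variable (τ : F →+ ZMod 2)

/-- Kloosterman sums. -/
def kl (a b : F) : ℤ := ∑ u : Fˣ, chi τ (a * u + b * (u : F)⁻¹)

lemma kl_scale (a b : F) (c : Fˣ) : kl τ (a * c) (b * (c : F)⁻¹) = kl τ a b := by
  unfold kl
  refine Fintype.sum_equiv (Equiv.mulLeft c) _ _ (fun u => ?_)
  simp only [Equiv.coe_mulLeft, Units.val_mul, mul_inv]
  congr 1
  ring

/-- the set of solutions counted by the fourth moment -/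
def solSet (F : Type*) [Field F] [Fintype F] [DecidableEq F] : Finset (Fin 4 → Fˣ) :=
  univ.filter (fun p => ∑ i, (p i : F) = 0 ∧ ∑ i, ((p i : F))⁻¹ = 0)

lemma kl_pow_four (a b : F) :
    (kl τ a b) ^ 4 = ∑ p : Fin 4 → Fˣ, chi τ (a * (∑ i, (p i : F)) + b * ∑ i, ((p i : F))⁻¹) := by
  unfold kl
  rw [Fintype.sum_pow]
  refine Finset.sum_congr rfl (fun p _ => ?_)
  rw [← chi_sum]
  congr 1
  rw [Finset.mul_sum, Finset.mul_sum, ← Finset.sum_add_distrib]

variable {τ}

lemma fourth_moment (hτ : τ ≠ 0) :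
    ∑ a : F, ∑ b : F, (kl τ a b) ^ 4 = (Fintype.card F : ℤ) ^ 2 * ((solSet F).card : ℤ) := by
  have h1 : ∀ a b : F, (kl τ a b) ^ 4 = ∑ p : Fin 4 → Fˣ,
      chi τ (a * (∑ i, (p i : F))) * chi τ (b * ∑ i, ((p i : F))⁻¹) := by
    intro a b
    rw [kl_pow_four]
    exact Finset.sum_congr rfl (fun p _ => chi_add _ _ _)
  have h2 : ∑ a : F, ∑ b : F, (kl τ a b) ^ 4 =
      ∑ p : Fin 4 → Fˣ, (∑ a : F, chi τ (a * (∑ i, (p i : F)))) *
        (∑ b : F, chi τ (b * ∑ i, ((p i : F))⁻¹)) := by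
    simp_rw [h1]
    have : ∀ a : F, ∑ b : F, ∑ p : Fin 4 → Fˣ,
        chi τ (a * (∑ i, (p i : F))) * chi τ (b * ∑ i, ((p i : F))⁻¹) =
        ∑ p : Fin 4 → Fˣ, chi τ (a * (∑ i, (p i : F))) *
          ∑ b : F, chi τ (b * ∑ i, ((p i : F))⁻¹) := by
      intro a
      rw [Finset.sum_comm]
      exact Finset.sum_congr rfl (fun p _ => (Finset.mul_sum _ _ _).symm)
    simp_rw [this]
    rw [Finset.sum_comm]
    exact Finset.sum_congr rfl (fun p _ => (Finset.sum_mul _ _ _).symm)
  rw [h2]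
  simp_rw [sum_chi_mul hτ]
  rw [solSet, Finset.card_filter]
  push_cast
  rw [Finset.mul_sum]
  refine Finset.sum_congr rfl (fun p _ => ?_)
  by_cases hA : ∑ i, (p i : F) = 0 <;> by_cases hB : ∑ i, ((p i : F))⁻¹ = 0 <;>
    simp [hA, hB, sq]

variable (F) in
lemma solSet_card_le [CharP F 2] : (solSet F).card ≤ 3 * (Fintype.card Fˣ) ^ 2 := by
  classical
  let f1 : Fˣ × Fˣ → (Fin 4 → Fˣ) := fun x => ![x.1, x.1, x.2, x.2]
  let f2 : Fˣ × Fˣ → (Fin 4 → Fˣ) := fun x => ![x.1, x.2, x.1, x.2]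
  let f3 : Fˣ × Fˣ → (Fin 4 → Fˣ) := fun x => ![x.1, x.2, x.2, x.1]
  have hsub : solSet F ⊆ (univ.image f1 ∪ univ.image f2) ∪ univ.image f3 := by
    intro p hp
    simp only [solSet, Finset.mem_filter, Finset.mem_univ, true_and, Fin.sum_univ_four] at hp
    obtain ⟨h1, h2⟩ := hp
    have ha : (p 0 : F) ≠ 0 := (p 0).ne_zero
    have hb : (p 1 : F) ≠ 0 := (p 1).ne_zero
    have hc : (p 2 : F) ≠ 0 := (p 2).ne_zero
    have hd : (p 3 : F) ≠ 0 := (p 3).ne_zero
    have two : (2 : F) = 0 := CharTwo.two_eq_zero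
    have h3 : ((p 0 : F) + p 1) * ((p 2 : F) * p 3 + p 0 * p 1) = 0 := by
      have h2' : ((p 0 : F))⁻¹ + (p 1 : F)⁻¹ + (p 2 : F)⁻¹ + (p 3 : F)⁻¹ = 0 := h2
      field_simp at h2'
      linear_combination h2' + (p 0 * p 1 : F) * h1 - (p 0 * p 1 * (p 2 + p 3) : F) * two
    simp only [Finset.mem_union, Finset.mem_image, Finset.mem_univ, true_and, Prod.exists]
    rcases mul_eq_zero.mp h3 with h4 | h4
    · left; left
      have e1 : (p 1 : F) = p 0 := by linear_combination h4 - (p 0 : F) * two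
      have e2 : (p 3 : F) = p 2 := by linear_combination h1 - h4 - (p 2 : F) * two
      refine ⟨p 0, p 2, ?_⟩
      funext i
      fin_cases i
      · rfl
      · exact (Units.ext e1).symm
      · rfl
      · exact (Units.ext e2).symm
    · have h5 : ((p 2 : F) - p 0) * ((p 2 : F) - p 1) = 0 := by
        linear_combination h4 - (p 2 : F) * h1 + (p 2 : F) * (p 2 : F) * two
      rcases mul_eq_zero.mp h5 with h6 | h6
      · left; right
        have e1 : (p 2 : F) = p 0 := by linear_combination h6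
        have e2 : (p 3 : F) = p 1 := by
          linear_combination h1 - e1 - (p 0 + p 1 : F) * two
        refine ⟨p 0, p 1, ?_⟩
        funext i
        fin_cases i
        · rfl
        · rfl
        · exact (Units.ext e1).symm
        · exact (Units.ext e2).symm
      · right
        have e1 : (p 2 : F) = p 1 := by linear_combination h6
        have e2 : (p 3 : F) = p 0 := by
          linear_combination h1 - e1 - (p 0 + p 1 : F) * two
        refine ⟨p 0, p 1, ?_⟩
        funext i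
        fin_cases i
        · rfl
        · rfl
        · exact (Units.ext e1).symm
        · exact (Units.ext e2).symm
  have hc : ∀ f : Fˣ × Fˣ → (Fin 4 → Fˣ), (univ.image f).card ≤ (Fintype.card Fˣ) ^ 2 := by
    intro f
    refine Finset.card_image_le.trans ?_
    rw [Finset.card_univ, Fintype.card_prod, sq]
  calc (solSet F).card ≤ ((univ.image f1 ∪ univ.image f2) ∪ univ.image f3).card :=
        Finset.card_le_card hsub
    _ ≤ (univ.image f1).card + (univ.image f2).card + (univ.image f3).card :=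
        (Finset.card_union_le _ _).trans (Nat.add_le_add_right (Finset.card_union_le _ _) _)
    _ ≤ 3 * (Fintype.card Fˣ) ^ 2 := by
        have := hc f1; have := hc f2; have := hc f3; omega

/-- Kloosterman's elementary bound. -/
lemma kl_bound [CharP F 2] (hτ : τ ≠ 0) (a b : Fˣ) :
    (kl τ (a : F) (b : F)) ^ 4 ≤ 3 * (Fintype.card F : ℤ) ^ 3 := by
  set q : ℤ := (Fintype.card F : ℤ) with hq
  have hcardu : (Fintype.card Fˣ : ℤ) = q - 1 := by
    have h := Fintype.card_eq_card_units_add_one (α := F)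
    rw [hq]
    omega
  have hpos : 0 < (Fintype.card Fˣ : ℤ) := by
    have : 0 < Fintype.card Fˣ := Fintype.card_pos
    exact_mod_cast this
  -- the sum over the orbit
  have horb : (Fintype.card Fˣ : ℤ) * (kl τ (a : F) (b : F)) ^ 4 ≤
      ∑ x : F × F, (kl τ x.1 x.2) ^ 4 := by
    have h1 : (Fintype.card Fˣ : ℤ) * (kl τ (a : F) (b : F)) ^ 4 =
        ∑ c : Fˣ, (kl τ (a * c : F) (b * (c : F)⁻¹)) ^ 4 := by
      simp_rw [kl_scale]
      simp
    rw [h1]
    let g : Fˣ → F × F := fun c => ((a : F) * c, (b : F) * (c : F)⁻¹)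
    have hg : Function.Injective g := by
      intro c c' h
      have : (a : F) * c = (a : F) * c' := congrArg Prod.fst h
      exact Units.ext (mul_left_cancel₀ a.ne_zero this)
    have h2 : ∑ c : Fˣ, (kl τ (a * c : F) (b * (c : F)⁻¹)) ^ 4 =
        ∑ x ∈ univ.image g, (kl τ x.1 x.2) ^ 4 := by
      rw [Finset.sum_image (fun x _ y _ h => hg h)]
    rw [h2]
    exact Finset.sum_le_sum_of_subset_of_nonneg (Finset.subset_univ _)
      (fun x _ _ => by positivity)
  have hfour : ∑ x : F × F, (kl τ x.1 x.2) ^ 4 = q ^ 2 * ((solSet F).card : ℤ) := by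
    rw [Fintype.sum_prod_type, fourth_moment hτ]
  have hsol : ((solSet F).card : ℤ) ≤ 3 * (Fintype.card Fˣ : ℤ) ^ 2 := by
    exact_mod_cast solSet_card_le F
  have hq0 : 0 ≤ q := by rw [hq]; positivity
  have h3 : (Fintype.card Fˣ : ℤ) * (kl τ (a : F) (b : F)) ^ 4 ≤
      (Fintype.card Fˣ : ℤ) * (3 * q ^ 2 * (q - 1)) := by
    calc (Fintype.card Fˣ : ℤ) * (kl τ (a : F) (b : F)) ^ 4
        ≤ q ^ 2 * ((solSet F).card : ℤ) := by rw [← hfour]; exact horb
      _ ≤ q ^ 2 * (3 * (Fintype.card Fˣ : ℤ) ^ 2) :=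
          mul_le_mul_of_nonneg_left hsol (by positivity)
      _ = (Fintype.card Fˣ : ℤ) * (3 * q ^ 2 * (q - 1)) := by rw [hcardu]; ring
  have h4 : (kl τ (a : F) (b : F)) ^ 4 ≤ 3 * q ^ 2 * (q - 1) := le_of_mul_le_mul_left h3 hpos
  nlinarith [h4, sq_nonneg q]

end kloosterman

end Pool.Agent.MP_02bc1b_co
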