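import Pool.Agent.Lib.MP_02bc1b_co.Graph

set_option linter.unusedSectionVars false

namespace Pool.Agent.MP_02bc1b_co

open Finset SimpleGraph

section

variable {F : Type*} [Field F] [Fintype F] [DecidableEq F] [CharP F 2] {τ : F →+ ZMod 2}

lemma card_half (hτ : τ ≠ 0) :
    2 * (univ.filter (fun a : F => τ a⁻¹ = 1)).card = Fintype.card F := by
  have h1 : ∑ a : F, (1 - chi τ a⁻¹) = 2 * ((univ.filter (fun a : F => τ a⁻¹ = 1)).card : ℤ) := by
    rw [Finset.card_filter]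
    push_cast
    rw [Finset.mul_sum]
    refine Finset.sum_congr rfl (fun a _ => ?_)
    rw [one_sub_chi]
    split_ifs <;> simp
  rw [Finset.sum_sub_distrib, sum_chi_inv hτ] at h1
  simp only [sum_const, card_univ, nsmul_eq_mul, mul_one, sub_zero] at h1
  exact_mod_cast h1.symm

lemma card_VV (hτ : τ ≠ 0) : 2 * Fintype.card (VV τ) = (Fintype.card F) ^ 2 := by
  have h1 : Fintype.card (VV τ) =
      (univ.filter (fun a : F => τ a⁻¹ = 1)).card * Fintype.card F := by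
    rw [Fintype.card_subtype, ← Finset.card_univ (α := F), ← Finset.card_product]
    congr 1
    ext p
    simp
  rw [h1, ← mul_assoc, card_half hτ, sq]

lemma exists_saturated (hτ : τ ≠ 0) (hq : 1024 ≤ Fintype.card F) (m : ℕ)
    (hqm : Fintype.card F = 8 * m)
    (hnum : (Fintype.card F) ^ 4 * 15 ^ m < 16 ^ m) (n : ℕ)
    (h1 : (Fintype.card F) ^ 2 ≤ 8 * n) (h2 : 2 * n ≤ (Fintype.card F) ^ 2) :
    ∃ G : SimpleGraph (Fin n), IsSaturated (cycleGraph 4) G ∧ G.CliqueFree 3 := by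
  classical
  set q := Fintype.card F with hqdef
  have hV : 2 * Fintype.card (VV τ) = q ^ 2 := card_VV hτ
  let S : Finset (VV τ × VV τ) := univ.filter (fun i => i.1 ≠ i.2 ∧ ¬ (polG τ).Adj i.1 i.2)
  have hS : ∀ i ∈ S, i.1 ≠ i.2 ∧ ¬ (polG τ).Adj i.1 i.2 := fun i hi =>
    (Finset.mem_filter.mp hi).2
  have hScard : 4 * S.card ≤ q ^ 4 := by
    have h3 : S.card ≤ Fintype.card (VV τ) * Fintype.card (VV τ) := by
      rw [← Fintype.card_prod, ← Finset.card_univ]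
      exact Finset.card_le_card (Finset.filter_subset _ _)
    calc 4 * S.card ≤ 4 * (Fintype.card (VV τ) * Fintype.card (VV τ)) :=
          Nat.mul_le_mul_left _ h3
      _ = (2 * Fintype.card (VV τ)) ^ 2 := by ring
      _ = q ^ 4 := by rw [hV]; ring
  obtain ⟨K, hK1, hK2⟩ := exists_core S (MM τ) m
    (fun i hi => MM_disj i.1 i.2 (hS i hi).1 (hS i hi).2)
    (fun i hi => by
      have := MM_card (τ := τ) hτ hq i.1 i.2 (hS i hi).1 (hS i hi).2
      have h3 : 8 * m ≤ 8 * (MM τ (i.1, i.2)).card := by rw [← hqm]; exact this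
      exact Nat.le_of_mul_le_mul_left h3 (by norm_num))
    (lt_of_le_of_lt (Nat.mul_le_mul_right _ hScard) hnum)
  have hKn : K.card ≤ n := by omega
  have hnV : n ≤ (univ : Finset (VV τ)).card := by rw [Finset.card_univ]; omega
  obtain ⟨A, hKA, -, hAc⟩ := Finset.exists_subsuperset_card_eq (Finset.subset_univ K) hKn hnV
  let ι : Fin n → VV τ := fun i => ((Finset.equivFinOfCardEq hAc).symm i : VV τ)
  have hι : Function.Injective ι := by
    intro i j hij
    exact (Finset.equivFinOfCardEq hAc).symm.injective (Subtype.ext hij)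
  refine ⟨(polG τ).comap ι, ?_, cliqueFree_comap _ polG_noTri ι⟩
  refine saturated_comap (polG τ) polG_noC4 K ?_ ι hι ?_
  · intro u v huv hnadj
    obtain ⟨x, hx, hx1, hx2⟩ := hK2 (u, v) (Finset.mem_filter.mpr ⟨Finset.mem_univ _, huv, hnadj⟩)
    rw [mem_MM] at hx
    exact ⟨x.1, hx1, x.2, hx2, hx.1, hx.2.1, hx.2.2.1, hx.2.2.2.1, hx.2.2.2.2.1⟩
  · intro x hx
    refine ⟨Finset.equivFinOfCardEq hAc ⟨x, hKA hx⟩, ?_⟩
    simp [ι]

end

lemma num_ineq (k : ℕ) (hk : 13 ≤ k) : (2 ^ k) ^ 4 * 15 ^ (2 ^ (k - 3)) < 16 ^ (2 ^ (k - 3)) := by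
  induction k, hk using Nat.le_induction with
  | base =>
    have e0 : 2 ^ (13 - 3) = 64 * 16 := by norm_num
    rw [e0, pow_mul 15, pow_mul 16]
    have h1 : 2 ^ 4 * 15 ^ 64 < 16 ^ 64 := by norm_num
    calc (2 ^ 13) ^ 4 * (15 ^ 64) ^ 16 ≤ (2 ^ 4) ^ 16 * (15 ^ 64) ^ 16 :=
          Nat.mul_le_mul_right _ (by norm_num)
      _ = (2 ^ 4 * 15 ^ 64) ^ 16 := by rw [mul_pow]
      _ < (16 ^ 64) ^ 16 := Nat.pow_lt_pow_left h1 (by norm_num)
  | succ k hk ih =>
    have e1 : 2 ^ (k + 1 - 3) = 2 ^ (k - 3) * 2 := by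
      rw [← pow_succ]; congr 1; omega
    rw [e1, pow_mul 15, pow_mul 16]
    set X := 15 ^ (2 ^ (k - 3)) with hX
    set Y := 16 ^ (2 ^ (k - 3)) with hY
    have h2 : (2 ^ (k + 1)) ^ 4 ≤ ((2 ^ k) ^ 4) ^ 2 := by
      rw [← pow_mul, ← pow_mul, ← pow_mul]
      exact Nat.pow_le_pow_right (by norm_num) (by omega)
    calc (2 ^ (k + 1)) ^ 4 * X ^ 2 ≤ ((2 ^ k) ^ 4) ^ 2 * X ^ 2 := Nat.mul_le_mul_right _ h2
      _ = ((2 ^ k) ^ 4 * X) ^ 2 := by ring
      _ < Y ^ 2 := Nat.pow_lt_pow_left ih (by norm_num)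

theorem exists_triangleFree_saturated (n : ℕ) (hn : 2 ^ 23 ≤ n) :
    ∃ G : SimpleGraph (Fin n), IsSaturated (cycleGraph 4) G ∧ G.CliqueFree 3 := by
  classical
  set L := Nat.log 2 n with hL
  have hn0 : n ≠ 0 := by
    rintro rfl
    norm_num at hn
  have hL1 : 2 ^ L ≤ n := Nat.pow_log_le_self 2 hn0
  have hL2 : n < 2 ^ (L + 1) := Nat.lt_pow_succ_log_self (by norm_num) n
  have hL3 : 23 ≤ L := by
    rw [hL]
    exact Nat.le_log_of_pow_le (by norm_num) hn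
  set k := (L + 3) / 2 with hk
  have hk13 : 13 ≤ k := by omega
  have : Fact (Nat.Prime 2) := ⟨Nat.prime_two⟩
  let F := GaloisField 2 k
  let _ : Fintype F := Fintype.ofFinite F
  have : CharP F 2 := inferInstance
  have hcard : Fintype.card F = 2 ^ k := by
    rw [← Nat.card_eq_fintype_card]
    exact GaloisField.card 2 k (by omega)
  -- a nonzero additive functional
  obtain ⟨τ, hτ⟩ : ∃ τ : F →+ ZMod 2, τ ≠ 0 := by
    have h1 : ∃ f : Module.Dual (ZMod 2) F, f 1 ≠ 0 := by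
      by_contra hcon
      push Not at hcon
      exact one_ne_zero ((Module.forall_dual_apply_eq_zero_iff (ZMod 2) (1 : F)).mp hcon)
    obtain ⟨f, hf⟩ := h1
    refine ⟨f.toAddMonoidHom, fun h => hf ?_⟩
    have := congrArg (fun g : F →+ ZMod 2 => g 1) h
    simpa using this
  have hq1024 : 1024 ≤ Fintype.card F := by
    rw [hcard]
    calc 1024 = 2 ^ 10 := by norm_num
      _ ≤ 2 ^ k := Nat.pow_le_pow_right (by norm_num) (by omega)
  refine exists_saturated (τ := τ) hτ hq1024 (2 ^ (k - 3)) ?_ ?_ n ?_ ?_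
  · rw [hcard]
    calc 2 ^ k = 2 ^ (3 + (k - 3)) := by congr 1; omega
      _ = 8 * 2 ^ (k - 3) := by rw [pow_add]; norm_num
  · rw [hcard]
    exact num_ineq k hk13
  · rw [hcard, ← pow_mul]
    calc 2 ^ (k * 2) ≤ 2 ^ (3 + L) := Nat.pow_le_pow_right (by norm_num) (by omega)
      _ = 8 * 2 ^ L := by rw [pow_add]; norm_num
      _ ≤ 8 * n := Nat.mul_le_mul_left _ hL1
  · rw [hcard, ← pow_mul]
    calc 2 * n ≤ 2 * 2 ^ (L + 1) := Nat.mul_le_mul_left _ hL2.le
      _ = 2 ^ (L + 2) := by ring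
      _ ≤ 2 ^ (k * 2) := Nat.pow_le_pow_right (by norm_num) (by omega)

theorem sat_eq_zero (n : ℕ) (hn : 2 ^ 23 ≤ n) :
    sat n (⊤ : SimpleGraph (Fin 3)) (cycleGraph 4) = 0 := by
  obtain ⟨G, hG1, hG2⟩ := exists_triangleFree_saturated n hn
  unfold sat
  rw [Nat.sInf_eq_zero]
  left
  refine ⟨G, hG1, ?_⟩
  rw [copyCount_eq_zero]
  intro hcon
  rw [SimpleGraph.cliqueFree_iff] at hG2
  obtain ⟨f⟩ := hcon
  exact hG2.false f

end Pool.Agent.MP_02bc1b_co
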